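import Pool.Agent.D0H67.TS.DStm

/-!
# CEN: the derivatives of the bordered minors (statement in `D0H67.TS.DStm`)

A derivation which kills the entries of a matrix kills its determinant and its adjugate (`kill`).
-/

set_option autoImplicit false

namespace Pool.Agent.D0H42.TS

open MvPolynomial Matrix Pool.Agent.D0H67.TS

/-- the constants of a derivation -/
def kerD {σ : Type} (D : Derivation ℂ (MvPolynomial σ ℂ) (MvPolynomial σ ℂ)) : Subalgebra ℂ (MvPolynomial σ ℂ) where
  carrier := {p | D p = 0}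
  mul_mem' := by
    intro p q hp hq
    simp only [Set.mem_ofPred_eq] at hp hq ⊢
    rw [Derivation.leibniz, hp, hq, smul_zero, smul_zero, add_zero]
  add_mem' := by
    intro p q hp hq
    simp only [Set.mem_ofPred_eq] at hp hq ⊢
    rw [map_add, hp, hq, add_zero]
  algebraMap_mem' := by
    intro c
    exact D.map_algebraMap c

theorem mem_kerD {σ : Type} {D : Derivation ℂ (MvPolynomial σ ℂ) (MvPolynomial σ ℂ)} {p : MvPolynomial σ ℂ} :
    p ∈ kerD D ↔ D p = 0 := Iff.rfl

/-- a derivation which kills the entries kills the determinant and the adjugate -/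
theorem kill {σ : Type} (D : Derivation ℂ (MvPolynomial σ ℂ) (MvPolynomial σ ℂ)) {r : ℕ}
    (M : Matrix (Fin r) (Fin r) (MvPolynomial σ ℂ)) (h : ∀ i j, D (M i j) = 0) :
    D M.det = 0 ∧ ∀ i j, D (M.adjugate i j) = 0 := by
  let M' : Matrix (Fin r) (Fin r) (kerD D) := Matrix.of fun i j => ⟨M i j, h i j⟩
  have hM : M = (kerD D).val.mapMatrix M' := by
    ext i j : 2
    rfl
  constructor
  · rw [hM, ← AlgHom.map_det]
    exact (M'.det).2
  · intro i j
    rw [hM, ← AlgHom.map_adjugate]
    exact (M'.adjugate i j).2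

theorem pderiv_brd {m n : Type} {r : ℕ} (a : Fin r → m) (b : Fin r → n)
    (q q' : {i : m // i ∉ Set.range a} × {j : n // j ∉ Set.range b}) :
    (q' = q → pderiv (q'.1.1, q'.2.1) (brd m n a b q) = minG m n r (a, b)) ∧
      (q' ≠ q → pderiv (q'.1.1, q'.2.1) (brd m n a b q) = 0) := by
  classical
  have hX : ∀ p : m × n, p ≠ (q'.1.1, q'.2.1) → pderiv (q'.1.1, q'.2.1) (X p : MvPolynomial (m × n) ℂ) = 0 := by
    intro p hp
    rw [pderiv_X, Pi.single_eq_of_ne hp]
  have ha : ∀ t, a t ≠ q'.1.1 := fun t h => q'.1.2 ⟨t, h⟩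
  have hb : ∀ t, b t ≠ q'.2.1 := fun t h => q'.2.2 ⟨t, h⟩
  obtain ⟨h1, h2⟩ := kill (pderiv (q'.1.1, q'.2.1))
    (Matrix.of fun i j => X (a i, b j) : Matrix (Fin r) (Fin r) (MvPolynomial (m × n) ℂ)) (by
      intro i j
      exact hX _ fun h => ha i (congrArg Prod.fst h))
  have h3 : pderiv (q'.1.1, q'.2.1) (brd m n a b q) =
      minG m n r (a, b) * pderiv (q'.1.1, q'.2.1) (X (q.1.1, q.2.1) : MvPolynomial (m × n) ℂ) := by
    have h1' : pderiv (q'.1.1, q'.2.1) (minG m n r (a, b)) = 0 := h1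
    unfold brd
    rw [map_sub, Derivation.leibniz, h1', smul_zero, add_zero, smul_eq_mul, map_sum, Finset.sum_eq_zero, sub_zero]
    intro s _
    rw [map_sum, Finset.sum_eq_zero]
    intro t _
    rw [Derivation.leibniz, Derivation.leibniz, h2, hX (q.1.1, b s) fun h => hb s (congrArg Prod.snd h),
      hX (a t, q.2.1) fun h => ha t (congrArg Prod.fst h)]
    simp
  constructor
  · rintro rfl
    rw [h3, pderiv_X_self, mul_one]
  · intro hne
    rw [h3, hX _ fun h => hne ?_, mul_zero]
    rw [Prod.mk.injEq] at h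
    exact (Prod.ext (Subtype.ext h.1) (Subtype.ext h.2)).symm

theorem t_CEN : S_CEN := by
  intro m n _ _ r a b u hu hz k
  refine ⟨hz, ?_, by rw [map_pow]; exact pow_ne_zero _ hu⟩
  classical
  rw [linearIndependent_iff']
  intro s g hg q hq
  have h1 := congrFun hg (q.1.1, q.2.1)
  rw [Finset.sum_apply, Finset.sum_eq_single q] at h1
  · simp only [Pi.smul_apply, Pi.zero_apply, smul_eq_mul] at h1
    rw [(pderiv_brd a b q q).1 rfl] at h1
    exact (mul_eq_zero.1 h1).resolve_right hu
  · intro q' _ hne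
    simp only [Pi.smul_apply, smul_eq_mul]
    rw [(pderiv_brd a b q' q).2 (Ne.symm hne), map_zero, mul_zero]
  · intro h
    exact absurd hq h

end Pool.Agent.D0H42.TS
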