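import Pool.Agent.D0H67.TS.DStm

/-!
# SYLB: the minors of the matrix of the bordered minors lie in the ideal of the minors (statement in `D0H67.TS.DStm`)

`((A, B), (C, D)) ((adj A, - adj(A) B), (0, Δ)) = ((Δ, 0), (C adj A, Δ D - C adj(A) B))`, so
`Δ ^ r det f(I, J) = det M det (adj A) Δ ^ (k - r)` (no case distinction on `r`).
-/

set_option autoImplicit false

namespace Pool.Agent.D0H42.TS

open MvPolynomial Matrix Pool.Agent.D0H67.TS

/-- the determinant of a block matrix is a minor -/
theorem det_blocks_mem (m n : Type) {r s : ℕ} (a : Fin r → m) (b : Fin r → n) (I : Fin s → m) (J : Fin s → n) :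
    (Matrix.fromBlocks (Matrix.of fun i j => X (a i, b j)) (Matrix.of fun i j => X (a i, J j))
      (Matrix.of fun i j => X (I i, b j)) (Matrix.of fun i j => X (I i, J j)) :
      Matrix (Fin r ⊕ Fin s) (Fin r ⊕ Fin s) (MvPolynomial (m × n) ℂ)).det ∈
      Set.range (minG m n (r + s)) := by
  refine ⟨(fun i => Sum.elim a I (finSumFinEquiv.symm i), fun j => Sum.elim b J (finSumFinEquiv.symm j)), ?_⟩
  unfold minG
  rw [← Matrix.det_submatrix_equiv_self (finSumFinEquiv (m := r) (n := s)).symm]
  congr 1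
  ext i j : 2
  simp only [Matrix.submatrix_apply, Matrix.of_apply]
  rcases finSumFinEquiv.symm i with i | i <;> rcases finSumFinEquiv.symm j with j | j <;>
    simp [Matrix.fromBlocks]

theorem t_SYLB : S_SYLB := by
  intro m n _ _ r k a b hrk l
  obtain ⟨s, rfl⟩ := Nat.exists_eq_add_of_le hrk
  obtain ⟨l', hl'⟩ : ∃ l' : (Fin s → {i : m // i ∉ Set.range a}) × (Fin s → {j : n // j ∉ Set.range b}),
      minG {i : m // i ∉ Set.range a} {j : n // j ∉ Set.range b} (r + s - r) l = minG _ _ s l' := by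
    have h : ∀ t : ℕ, t = s → ∀ l : (Fin t → {i : m // i ∉ Set.range a}) × (Fin t → {j : n // j ∉ Set.range b}),
        ∃ l' : (Fin s → {i : m // i ∉ Set.range a}) × (Fin s → {j : n // j ∉ Set.range b}),
          minG {i : m // i ∉ Set.range a} {j : n // j ∉ Set.range b} t l = minG _ _ s l' := by
      rintro t rfl l
      exact ⟨l, rfl⟩
    exact h _ (by omega) l
  rw [hl']
  set A : Matrix (Fin r) (Fin r) (MvPolynomial (m × n) ℂ) := Matrix.of fun i j => X (a i, b j) with hA
  set B : Matrix (Fin r) (Fin s) (MvPolynomial (m × n) ℂ) := Matrix.of fun i j => X (a i, (l'.2 j).1) with hB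
  set C : Matrix (Fin s) (Fin r) (MvPolynomial (m × n) ℂ) := Matrix.of fun i j => X ((l'.1 i).1, b j) with hC
  set D : Matrix (Fin s) (Fin s) (MvPolynomial (m × n) ℂ) := Matrix.of fun i j => X ((l'.1 i).1, (l'.2 j).1) with hD
  set F : Matrix (Fin s) (Fin s) (MvPolynomial (m × n) ℂ) := Matrix.of fun i j => brd m n a b (l'.1 i, l'.2 j)
    with hF
  have hdet : bind₁ (brd m n a b) (minG _ _ s l') = F.det := by
    unfold minG
    rw [AlgHom.map_det]
    congr 1
    ext i j : 2
    simp [hF, bind₁_X_right]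
  have hΔ : minG m n r (a, b) = A.det := rfl
  have hFe : F = A.det • D - C * A.adjugate * B := by
    ext i j : 2
    simp only [hF, Matrix.of_apply, brd, Matrix.sub_apply, Matrix.smul_apply, smul_eq_mul, hD]
    have hs : (C * A.adjugate * B) i j = ∑ t : Fin r, ∑ s' : Fin r,
        X ((l'.1 i).1, b s') * A.adjugate s' t * X (a t, (l'.2 j).1) := by
      rw [Matrix.mul_apply]
      refine Finset.sum_congr rfl fun t _ => ?_
      rw [Matrix.mul_apply, Finset.sum_mul]
      rfl
    rw [hs, Finset.sum_comm]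
    rfl
  have hmul : Matrix.fromBlocks A B C D * Matrix.fromBlocks A.adjugate (-(A.adjugate * B)) 0 (A.det • (1 : Matrix (Fin s) (Fin s) _)) =
      Matrix.fromBlocks (A.det • (1 : Matrix (Fin r) (Fin r) _)) 0 (C * A.adjugate) F := by
    rw [Matrix.fromBlocks_multiply]
    congr 1
    · rw [Matrix.mul_zero, add_zero, Matrix.mul_adjugate]
    · rw [Matrix.mul_neg, ← Matrix.mul_assoc, Matrix.mul_adjugate, Matrix.smul_mul, Matrix.one_mul,
        Matrix.mul_smul, Matrix.mul_one, neg_add_cancel]
    · rw [Matrix.mul_zero, add_zero]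
    · rw [hFe, Matrix.mul_neg, ← Matrix.mul_assoc, Matrix.mul_smul, Matrix.mul_one]
      abel
  have hd := congrArg Matrix.det hmul
  rw [Matrix.det_mul, Matrix.det_fromBlocks_zero₂₁, Matrix.det_fromBlocks_zero₁₂, Matrix.det_smul,
    Matrix.det_smul, Matrix.det_one, Matrix.det_one, mul_one, mul_one, Fintype.card_fin, Fintype.card_fin] at hd
  have hmem : (Matrix.fromBlocks A B C D).det ∈ Ideal.span (Set.range (minG m n (r + s))) :=
    Ideal.subset_span (det_blocks_mem m n a b (fun i => (l'.1 i).1) (fun j => (l'.2 j).1))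
  rw [hdet, hΔ, pow_add, mul_comm (A.det ^ r), mul_assoc, ← hd]
  have e : A.det ^ s * ((Matrix.fromBlocks A B C D).det * (A.adjugate.det * A.det ^ s)) =
      (A.det ^ s * (A.adjugate.det * A.det ^ s)) * (Matrix.fromBlocks A B C D).det := by ring
  rw [e]
  exact Ideal.mul_mem_left _ _ hmem

end Pool.Agent.D0H42.TS
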